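import Mathlib

/-!
# Linear relations with algebraic coefficients between elements of a finite dimensional rational
vector space of complex numbers
-/

set_option autoImplicit false

namespace Pool.Agent.Y683.MS

theorem gal_lin (V : Submodule ℚ ℂ) (hV : V.FG) : ∃ S : Finset ℂ,
    (∀ x ∈ S, IsAlgebraic ℚ x) ∧ ∀ σ : ℂ ≃+* ℂ, (∀ x ∈ S, σ x = x) →
      ∀ {ι : Type} (s : Finset ι) (c v : ι → ℂ), (∀ i ∈ s, IsAlgebraic ℚ (c i)) →
        (∀ i ∈ s, v i ∈ V) → ∑ i ∈ s, c i * v i = 0 → ∑ i ∈ s, σ (c i) * v i = 0 := by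
  classical
  obtain ⟨n, v, hv⟩ := Submodule.fg_iff_exists_fin_generating_family.1 hV
  set K : IntermediateField ℚ ℂ := algebraicClosure ℚ ℂ with hK
  let W : Submodule K ℂ := Submodule.span K (Set.range v)
  have hW : Module.Finite K W := Module.Finite.span_of_finite K (Set.finite_range v)
  let b := Module.finBasis K W
  let e : Fin (Module.finrank K W) → ℂ := fun i => (b i : ℂ)
  let a : Fin n → Fin (Module.finrank K W) → K :=
    fun j i => b.repr ⟨v j, Submodule.subset_span ⟨j, rfl⟩⟩ i
  have ha : ∀ j, v j = ∑ i, (a j i : ℂ) * e i := by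
    intro j
    have h1 := b.sum_repr ⟨v j, Submodule.subset_span ⟨j, rfl⟩⟩
    have h2 := congrArg (fun w : W => (w : ℂ)) h1
    simp only [Submodule.coe_sum, Submodule.coe_smul] at h2
    rw [← h2]
    refine Finset.sum_congr rfl fun i _ => ?_
    rw [Algebra.smul_def]
    rfl
  have hlin : ∀ γ : Fin (Module.finrank K W) → K, ∑ i, (γ i : ℂ) * e i = 0 → ∀ i, γ i = 0 := by
    intro γ hγ
    have h1 : ∑ i, γ i • b i = 0 := by
      apply Subtype.ext
      simp only [Submodule.coe_sum, Submodule.coe_smul, Submodule.coe_zero]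
      rw [← hγ]
      refine Finset.sum_congr rfl fun i _ => ?_
      rw [Algebra.smul_def]
      rfl
    exact Fintype.linearIndependent_iff.1 b.linearIndependent γ h1
  refine ⟨Finset.univ.image (fun p : Fin n × Fin (Module.finrank K W) => (a p.1 p.2 : ℂ)), ?_, ?_⟩
  · intro x hx
    obtain ⟨p, -, rfl⟩ := Finset.mem_image.1 hx
    exact mem_algebraicClosure_iff.1 (a p.1 p.2).2
  · intro σ hσ ι s c w hc hw h0
    have hσa : ∀ j i, σ (a j i : ℂ) = a j i := fun j i =>
      hσ _ (Finset.mem_image.2 ⟨(j, i), Finset.mem_univ _, rfl⟩)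
    have key : ∀ x ∈ V, ∃ β : Fin (Module.finrank K W) → K, (∀ i, σ (β i : ℂ) = β i) ∧
        x = ∑ i, (β i : ℂ) * e i := by
      intro x hx
      rw [← hv] at hx
      refine Submodule.span_induction (p := fun x _ => ∃ β : Fin (Module.finrank K W) → K,
        (∀ i, σ (β i : ℂ) = β i) ∧ x = ∑ i, (β i : ℂ) * e i) ?_ ?_ ?_ ?_ hx
      · rintro _ ⟨j, rfl⟩
        exact ⟨a j, hσa j, ha j⟩
      · exact ⟨0, fun i => by simp, by simp⟩
      · rintro x y - - ⟨β, h1, h2⟩ ⟨β', h1', h2'⟩
        refine ⟨β + β', fun i => ?_, ?_⟩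
        · simp only [Pi.add_apply]
          push_cast
          rw [map_add, h1, h1']
        · rw [h2, h2', ← Finset.sum_add_distrib]
          refine Finset.sum_congr rfl fun i _ => ?_
          simp only [Pi.add_apply]
          push_cast
          ring
      · rintro r x - ⟨β, h1, h2⟩
        refine ⟨fun i => (r : K) * β i, fun i => ?_, ?_⟩
        · push_cast
          rw [map_mul, h1, map_ratCast]
        · rw [h2, Algebra.smul_def, Finset.mul_sum]
          refine Finset.sum_congr rfl fun i _ => ?_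
          push_cast
          have : (algebraMap ℚ ℂ) r = (r : ℂ) := rfl
          rw [this]
          ring
    have key2 : ∀ l, ∃ β : Fin (Module.finrank K W) → K, l ∈ s →
        ((∀ i, σ (β i : ℂ) = β i) ∧ w l = ∑ i, (β i : ℂ) * e i) := by
      intro l
      by_cases hl : l ∈ s
      · obtain ⟨β, h⟩ := key (w l) (hw l hl)
        exact ⟨β, fun _ => h⟩
      · exact ⟨0, fun h => absurd h hl⟩
    choose β hβ using key2
    have hc' : ∀ l, ∃ d : K, l ∈ s → (d : ℂ) = c l := by
      intro l
      by_cases hl : l ∈ s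
      · exact ⟨⟨c l, mem_algebraicClosure_iff.2 (hc l hl)⟩, fun _ => rfl⟩
      · exact ⟨0, fun h => absurd h hl⟩
    choose d hd using hc'
    have h1 : ∑ i, ((∑ l ∈ s, d l * β l i : K) : ℂ) * e i = 0 := by
      rw [← h0]
      push_cast
      simp only [Finset.sum_mul]
      rw [Finset.sum_comm]
      refine Finset.sum_congr rfl fun l hl => ?_
      rw [(hβ l hl).2, Finset.mul_sum]
      refine Finset.sum_congr rfl fun i _ => ?_
      rw [hd l hl]
      ring
    have h2 := hlin _ h1
    have h3 : ∀ i, ∑ l ∈ s, σ (c l) * (β l i : ℂ) = 0 := by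
      intro i
      have h4 := congrArg (fun z : K => σ (z : ℂ)) (h2 i)
      push_cast at h4
      rw [map_sum, map_zero] at h4
      rw [← h4]
      refine Finset.sum_congr rfl fun l hl => ?_
      rw [map_mul, (hβ l hl).1 i, hd l hl]
    have h5 : ∑ l ∈ s, σ (c l) * w l = ∑ i, (∑ l ∈ s, σ (c l) * (β l i : ℂ)) * e i := by
      simp only [Finset.sum_mul]
      rw [Finset.sum_comm]
      refine Finset.sum_congr rfl fun l hl => ?_
      conv_lhs => rw [(hβ l hl).2]
      rw [Finset.mul_sum]
      refine Finset.sum_congr rfl fun i _ => ?_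
      ring
    rw [h5]
    exact Finset.sum_eq_zero fun i _ => by rw [h3 i, zero_mul]

end Pool.Agent.Y683.MS
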