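import Pool.Agent.Y683.MS.Prim

/-!
# Polynomial coefficients
-/

set_option autoImplicit false

namespace Pool.Agent.Y683.MS

open Complex Filter Topology Set Polynomial
open UpperHalfPlane hiding I
open scoped MatrixGroups

/-- the denominator `c z + d` -/
noncomputable def den (g : SL(2, ℤ)) (z : ℂ) : ℂ := ((g 1 0 : ℤ) : ℂ) * z + ((g 1 1 : ℤ) : ℂ)

/-- the Möbius transformation -/
noncomputable def mob (g : SL(2, ℤ)) (z : ℂ) : ℂ :=
  (((g 0 0 : ℤ) : ℂ) * z + ((g 0 1 : ℤ) : ℂ)) / den g z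

lemma det_eq (g : SL(2, ℤ)) : (((g 0 0 : ℤ) : ℂ) * ((g 1 1 : ℤ) : ℂ) -
    ((g 0 1 : ℤ) : ℂ) * ((g 1 0 : ℤ) : ℂ)) = 1 := by
  have h := g.det_coe
  rw [Matrix.det_fin_two] at h
  exact_mod_cast h

lemma mob_coe (g : SL(2, ℤ)) (τ : ℍ) : ((g • τ : ℍ) : ℂ) = mob g τ := by
  rw [UpperHalfPlane.specialLinearGroup_apply]
  simp [mob, den]

lemma den_ne (g : SL(2, ℤ)) {z : ℂ} (hz : 0 < z.im) : den g z ≠ 0 := by
  intro h
  have h1 := congrArg Complex.im h
  unfold den at h1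
  simp at h1
  have h2 := det_eq g
  rcases h1 with h1 | h1
  · unfold den at h
    rw [h1] at h h2
    simp at h
    rw [h] at h2
    simp at h2
  · exact hz.ne' h1

lemma mob_im (g : SL(2, ℤ)) {z : ℂ} (hz : 0 < z.im) : 0 < (mob g z).im := by
  have h := mob_coe g ⟨z, hz⟩
  have h2 := (g • (⟨z, hz⟩ : ℍ)).im_pos
  rw [← UpperHalfPlane.coe_im, h] at h2
  exact h2

lemma mob_deriv (g : SL(2, ℤ)) {z : ℂ} (hz : 0 < z.im) :
    HasDerivAt (mob g) (1 / den g z ^ 2) z := by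
  have h0 := den_ne g hz
  have h1 : HasDerivAt (fun z : ℂ => ((g 0 0 : ℤ) : ℂ) * z + ((g 0 1 : ℤ) : ℂ))
      ((g 0 0 : ℤ) : ℂ) z := by
    simpa using ((hasDerivAt_id z).const_mul ((g 0 0 : ℤ) : ℂ)).add_const ((g 0 1 : ℤ) : ℂ)
  have h2 : HasDerivAt (den g) ((g 1 0 : ℤ) : ℂ) z := by
    have := ((hasDerivAt_id z).const_mul ((g 1 0 : ℤ) : ℂ)).add_const ((g 1 1 : ℤ) : ℂ)
    rw [mul_one] at this
    exact this
  have h3 := h1.div h2 h0
  refine h3.congr_deriv ?_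
  have h4 := det_eq g
  congr 1
  unfold den
  linear_combination h4

/-- the action on polynomials of degree at most `d` -/
noncomputable def act (d : ℕ) (g : SL(2, ℤ)) (P : ℚ[X]) : ℚ[X] :=
  ∑ j ∈ Finset.range (d + 1), C (P.coeff j) * ((C ((g 0 0 : ℤ) : ℚ) * X + C ((g 0 1 : ℤ) : ℚ)) ^ j *
    (C ((g 1 0 : ℤ) : ℚ) * X + C ((g 1 1 : ℤ) : ℚ)) ^ (d - j))

lemma lin_deg (a b : ℚ) (n : ℕ) : ((C a * X + C b : ℚ[X]) ^ n).natDegree ≤ n := by
  refine natDegree_pow_le.trans ?_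
  have : (C a * X + C b : ℚ[X]).natDegree ≤ 1 := natDegree_linear_le
  calc n * (C a * X + C b : ℚ[X]).natDegree ≤ n * 1 := Nat.mul_le_mul_left _ this
    _ = n := mul_one n

lemma act_deg (d : ℕ) (g : SL(2, ℤ)) (P : ℚ[X]) : (act d g P).natDegree ≤ d := by
  unfold act
  refine natDegree_sum_le_of_forall_le _ _ fun j hj => ?_
  have hj' : j ≤ d := by
    have := Finset.mem_range.1 hj
    omega
  refine (natDegree_C_mul_le _ _).trans (natDegree_mul_le.trans ?_)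
  have h1 := lin_deg ((g 0 0 : ℤ) : ℚ) ((g 0 1 : ℤ) : ℚ) j
  have h2 := lin_deg ((g 1 0 : ℤ) : ℚ) ((g 1 1 : ℤ) : ℚ) (d - j)
  omega

lemma aeval_sum (P : ℚ[X]) {d : ℕ} (hP : P.natDegree ≤ d) (z : ℂ) :
    aeval z P = ∑ j ∈ Finset.range (d + 1), ((P.coeff j : ℚ) : ℂ) * z ^ j := by
  rw [aeval_eq_sum_range' (Nat.lt_succ_of_le hP)]
  refine Finset.sum_congr rfl fun j _ => ?_
  rw [Algebra.smul_def]
  rfl

lemma act_eval (d : ℕ) (g : SL(2, ℤ)) (P : ℚ[X]) (hP : P.natDegree ≤ d) {z : ℂ}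
    (hz : den g z ≠ 0) : aeval z (act d g P) = den g z ^ d * aeval (mob g z) P := by
  rw [aeval_sum P hP, Finset.mul_sum]
  unfold act
  rw [map_sum]
  refine Finset.sum_congr rfl fun j hj => ?_
  have hj' : j ≤ d := by
    have := Finset.mem_range.1 hj
    omega
  simp only [map_mul, map_pow, map_add, aeval_C, aeval_X]
  have e1 : (algebraMap ℚ ℂ) ((g 0 0 : ℤ) : ℚ) * z + (algebraMap ℚ ℂ) ((g 0 1 : ℤ) : ℚ) =
      mob g z * den g z := by
    unfold mob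
    rw [div_mul_cancel₀ _ hz]
    simp
  have e2 : (algebraMap ℚ ℂ) ((g 1 0 : ℤ) : ℚ) * z + (algebraMap ℚ ℂ) ((g 1 1 : ℤ) : ℚ) =
      den g z := by
    unfold den
    simp
  have e3 : (algebraMap ℚ ℂ) (P.coeff j) = ((P.coeff j : ℚ) : ℂ) := rfl
  rw [e1, e2, e3, mul_pow]
  have e4 : den g z ^ d = den g z ^ j * den g z ^ (d - j) := by
    rw [← pow_add]
    congr 1
    omega
  rw [e4]
  ring

lemma act_add (d : ℕ) (g : SL(2, ℤ)) (P Q : ℚ[X]) : act d g (P + Q) = act d g P + act d g Q := by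
  unfold act
  rw [← Finset.sum_add_distrib]
  refine Finset.sum_congr rfl fun j _ => ?_
  rw [coeff_add, C_add, add_mul]

lemma act_smul (d : ℕ) (g : SL(2, ℤ)) (c : ℚ) (P : ℚ[X]) : act d g (C c * P) =
    C c * act d g P := by
  unfold act
  rw [Finset.mul_sum]
  refine Finset.sum_congr rfl fun j _ => ?_
  rw [coeff_C_mul, C_mul, mul_assoc]

/-- the primitive of `h P` -/
noncomputable def FP (d : ℕ) (h : ℂ → ℂ) (P : ℚ[X]) (z : ℂ) : ℂ :=
  ∑ j ∈ Finset.range (d + 1), ((P.coeff j : ℚ) : ℂ) * PJ h j z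

lemma FP_add (d : ℕ) (h : ℂ → ℂ) (P Q : ℚ[X]) (z : ℂ) :
    FP d h (P + Q) z = FP d h P z + FP d h Q z := by
  unfold FP
  rw [← Finset.sum_add_distrib]
  refine Finset.sum_congr rfl fun j _ => ?_
  rw [coeff_add]
  push_cast
  ring

lemma FP_smul (d : ℕ) (h : ℂ → ℂ) (c : ℚ) (P : ℚ[X]) (z : ℂ) :
    FP d h (C c * P) z = (c : ℂ) * FP d h P z := by
  unfold FP
  rw [Finset.mul_sum]
  refine Finset.sum_congr rfl fun j _ => ?_
  rw [coeff_C_mul]
  push_cast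
  ring

lemma FP_deriv {d : ℕ} {h : ℂ → ℂ} (hh : Dec h) {P : ℚ[X]} (hP : P.natDegree ≤ d) {z : ℂ}
    (hz : 0 < z.im) : HasDerivAt (FP d h P) (h z * aeval z P) z := by
  rw [aeval_sum P hP, Finset.mul_sum]
  have h1 : HasDerivAt (fun z => ∑ j ∈ Finset.range (d + 1), ((P.coeff j : ℚ) : ℂ) * PJ h j z)
      (∑ j ∈ Finset.range (d + 1), ((P.coeff j : ℚ) : ℂ) * (h z * z ^ j)) z :=
    HasDerivAt.fun_sum fun j _ => (PJ_deriv hh j z hz).const_mul _
  refine h1.congr_deriv (Finset.sum_congr rfl fun j _ => ?_)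
  ring

lemma FP_lim {d : ℕ} {h : ℂ → ℂ} (hh : Dec h) (P : ℚ[X]) (x : ℝ) :
    Tendsto (fun y : ℝ => FP d h P ((x : ℂ) + y * I)) atTop (𝓝 0) := by
  have h1 : Tendsto (fun y : ℝ => ∑ j ∈ Finset.range (d + 1), ((P.coeff j : ℚ) : ℂ) *
      PJ h j ((x : ℂ) + y * I)) atTop (𝓝 (∑ j ∈ Finset.range (d + 1),
        ((P.coeff j : ℚ) : ℂ) * 0)) :=
    tendsto_finsetSum _ fun j _ => (PJ_lim hh j x).const_mul _
  simp only [mul_zero, Finset.sum_const_zero] at h1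
  exact h1

lemma uh_conn : IsPreconnected {z : ℂ | 0 < z.im} := (convex_halfSpace_im_gt 0).isPreconnected

/-- two functions with the same derivative -/
lemma const_of_deriv {F G : ℂ → ℂ} {φ : ℂ → ℂ} (hF : ∀ z : ℂ, 0 < z.im → HasDerivAt F (φ z) z)
    (hG : ∀ z : ℂ, 0 < z.im → HasDerivAt G (φ z) z) (z : ℂ) (hz : 0 < z.im) :
    F z = G z + (F I - G I) := by
  have hopen : IsOpen {z : ℂ | 0 < z.im} := isOpen_lt continuous_const Complex.continuous_im
  have hd : ∀ w : ℂ, 0 < w.im → HasDerivAt (fun w => F w - G w) 0 w := by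
    intro w hw
    have := (hF w hw).sub (hG w hw)
    rwa [sub_self] at this
  have h3 := hopen.is_const_of_deriv_eq_zero uh_conn
    (fun w hw => (hd w hw).differentiableAt.differentiableWithinAt)
    (fun w hw => (hd w hw).deriv) (show z ∈ {z : ℂ | 0 < z.im} from hz)
    (show I ∈ {z : ℂ | 0 < z.im} by simp)
  have h4 : F z - G z = F I - G I := h3
  rw [← h4]
  ring

/-- the constant of the transformation formula -/
noncomputable def kap (d : ℕ) (h h' : ℂ → ℂ) (g : SL(2, ℤ)) (P : ℚ[X]) : ℂ :=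
  FP d h P (mob g I) - FP d h' (act d g P) I

theorem FP_mob {d : ℕ} {h h' : ℂ → ℂ} (hh : Dec h) (hh' : Dec h') (g : SL(2, ℤ))
    (hg : ∀ z : ℂ, 0 < z.im → h (mob g z) = den g z ^ (d + 2) * h' z) {P : ℚ[X]}
    (hP : P.natDegree ≤ d) (z : ℂ) (hz : 0 < z.im) :
    FP d h P (mob g z) = FP d h' (act d g P) z + kap d h h' g P := by
  refine const_of_deriv (F := fun z => FP d h P (mob g z)) (G := FP d h' (act d g P))
    (φ := fun z => h' z * aeval z (act d g P)) (fun z hz => ?_)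
    (fun z hz => FP_deriv hh' (act_deg d g P) hz) z hz
  have h1 := (FP_deriv hh hP (mob_im g hz)).comp z (mob_deriv g hz)
  refine h1.congr_deriv ?_
  have h0 := den_ne g hz
  rw [hg z hz, act_eval d g P hP h0, pow_add]
  field_simp

end Pool.Agent.Y683.MS
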