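import Mathlib

/-!
# Primitives on the upper half plane of rapidly decreasing functions times monomials
-/

set_option autoImplicit false

namespace Pool.Agent.Y683.MS

open Complex Filter Topology Set MeasureTheory Metric

lemma ball_sub {z : ℂ} {n : ℕ} (h : z ∈ ball ((n : ℂ) * I) (n : ℝ)) : 0 < z.im := by
  rw [mem_ball, dist_eq_norm] at h
  have h1 : |(z - (n : ℂ) * I).im| ≤ ‖z - (n : ℂ) * I‖ := Complex.abs_im_le_norm _
  have h2 : (z - (n : ℂ) * I).im = z.im - n := by simp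
  rw [h2] at h1
  have h3 := neg_abs_le (z.im - (n : ℝ))
  linarith

lemma ball_mono {n m : ℕ} (h : n ≤ m) :
    ball ((n : ℂ) * I) (n : ℝ) ⊆ ball ((m : ℂ) * I) (m : ℝ) := by
  intro z hz
  rw [mem_ball, dist_eq_norm] at hz ⊢
  have h1 : z - (m : ℂ) * I = (z - (n : ℂ) * I) - ((m : ℂ) - n) * I := by ring
  have h2 : ‖((m : ℂ) - n) * I‖ = (m : ℝ) - n := by
    have h3 : (0 : ℝ) ≤ (m : ℝ) - n := by
      have : (n : ℝ) ≤ m := by exact_mod_cast h
      linarith
    rw [norm_mul, Complex.norm_I, mul_one]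
    have : ((m : ℂ) - n) = (((m : ℝ) - n : ℝ) : ℂ) := by push_cast; rfl
    rw [this, Complex.norm_real, Real.norm_eq_abs, abs_of_nonneg h3]
  calc ‖z - (m : ℂ) * I‖ = ‖(z - (n : ℂ) * I) - ((m : ℂ) - n) * I‖ := by rw [h1]
    _ ≤ ‖z - (n : ℂ) * I‖ + ‖((m : ℂ) - n) * I‖ := norm_sub_le _ _
    _ < n + ((m : ℝ) - n) := by rw [h2]; linarith
    _ = m := by ring

lemma exists_ball {z : ℂ} (hz : 0 < z.im) : ∃ n : ℕ, 1 ≤ n ∧ z ∈ ball ((n : ℂ) * I) (n : ℝ) := by
  obtain ⟨n, hn⟩ := exists_nat_gt (max 1 (Complex.normSq z / (2 * z.im)))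
  have h1 : (1 : ℝ) < n := lt_of_le_of_lt (le_max_left _ _) hn
  have h2 : Complex.normSq z / (2 * z.im) < n := lt_of_le_of_lt (le_max_right _ _) hn
  refine ⟨n, by exact_mod_cast h1.le, ?_⟩
  rw [mem_ball, dist_eq_norm]
  rw [div_lt_iff₀ (by positivity)] at h2
  have h3 : ‖z - (n : ℂ) * I‖ ^ 2 < (n : ℝ) ^ 2 := by
    rw [← Complex.normSq_eq_norm_sq, Complex.normSq_apply]
    rw [Complex.normSq_apply] at h2
    have h4 : (z - (n : ℂ) * I).re = z.re := by simp
    have h5 : (z - (n : ℂ) * I).im = z.im - n := by simp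
    rw [h4, h5]
    nlinarith
  exact lt_of_pow_lt_pow_left₀ 2 (by linarith) h3

theorem exists_primitive (φ : ℂ → ℂ) (h : DifferentiableOn ℂ φ {z : ℂ | 0 < z.im}) :
    ∃ F : ℂ → ℂ, ∀ z : ℂ, 0 < z.im → HasDerivAt F (φ z) z := by
  have h1 : ∀ n : ℕ, ∃ g : ℂ → ℂ, g I = 0 ∧ ∀ x ∈ ball ((n : ℂ) * I) (n : ℝ),
      HasDerivAt g (φ x) x := by
    intro n
    have h2 : DifferentiableOn ℂ φ (ball ((n : ℂ) * I) (n : ℝ)) :=
      h.mono fun z hz => ball_sub hz
    exact h2.isExactOn_ball.with_val_at I 0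
  choose g hg0 hg using h1
  have hI : ∀ n : ℕ, 1 ≤ n → I ∈ ball ((n : ℂ) * I) (n : ℝ) := by
    intro n hn
    have h2 : I ∈ ball (((1 : ℕ) : ℂ) * I) ((1 : ℕ) : ℝ) := by simp
    exact ball_mono hn h2
  have heq : ∀ n m : ℕ, 1 ≤ n → n ≤ m → ∀ z ∈ ball ((n : ℂ) * I) (n : ℝ), g m z = g n z := by
    intro n m hn hnm z hz
    have hd : ∀ w ∈ ball ((n : ℂ) * I) (n : ℝ), HasDerivAt (fun w => g m w - g n w) 0 w := by
      intro w hw
      have := (hg m w (ball_mono hnm hw)).sub (hg n w hw)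
      rwa [sub_self] at this
    have h3 := isOpen_ball.is_const_of_deriv_eq_zero (convex_ball _ _).isPreconnected
      (fun w hw => (hd w hw).differentiableAt.differentiableWithinAt)
      (fun w hw => (hd w hw).deriv) hz (hI n hn)
    have h4 : g m z - g n z = g m I - g n I := h3
    rw [hg0, hg0, sub_zero] at h4
    exact sub_eq_zero.1 h4
  have hN : ∀ z : ℂ, ∃ n : ℕ, 1 ≤ n ∧ (0 < z.im → z ∈ ball ((n : ℂ) * I) (n : ℝ)) := by
    intro z
    by_cases hz : 0 < z.im
    · obtain ⟨n, h1, h2⟩ := exists_ball hz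
      exact ⟨n, h1, fun _ => h2⟩
    · exact ⟨1, le_rfl, fun h => absurd h hz⟩
  choose N hN1 hN2 using hN
  refine ⟨fun z => g (N z) z, fun z hz => ?_⟩
  have hzb := hN2 z hz
  refine (hg (N z) z hzb).congr_of_eventuallyEq ?_
  filter_upwards [isOpen_ball.mem_nhds hzb] with w hw
  have hwim : 0 < w.im := ball_sub hw
  have hwb := hN2 w hwim
  have e1 := heq (N w) (max (N w) (N z)) (hN1 w) (le_max_left _ _) w hwb
  have e2 := heq (N z) (max (N w) (N z)) (hN1 z) (le_max_right _ _) w hw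
  rw [← e1, e2]

/-- holomorphic on the upper half plane, exponentially small at `i∞` -/
structure Dec (h : ℂ → ℂ) : Prop where
  diff : DifferentiableOn ℂ h {z : ℂ | 0 < z.im}
  dec : ∃ C c A : ℝ, 0 < c ∧ 0 < A ∧ ∀ z : ℂ, A ≤ z.im → ‖h z‖ ≤ C * Real.exp (-c * z.im)

lemma pow_le_exp (j : ℕ) {c u : ℝ} (hc : 0 < c) (hu : 0 ≤ u) :
    u ^ j ≤ ((2 / c) ^ j * j.factorial) * Real.exp (c * u / 2) := by
  have h1 := Real.pow_div_factorial_le_exp (x := c * u / 2) (by positivity) j
  have h2 : (0 : ℝ) < j.factorial := by exact_mod_cast Nat.factorial_pos j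
  rw [div_le_iff₀ h2] at h1
  have h3 : u ^ j = (2 / c) ^ j * (c * u / 2) ^ j := by
    rw [← mul_pow]
    congr 1
    field_simp
  rw [h3]
  calc (2 / c) ^ j * (c * u / 2) ^ j ≤ (2 / c) ^ j * (Real.exp (c * u / 2) * j.factorial) := by
        gcongr
    _ = _ := by ring

lemma Dec.bd {h : ℂ → ℂ} (hh : Dec h) (j : ℕ) : ∃ K c A : ℝ, 0 ≤ K ∧ 0 < c ∧ 0 < A ∧
    ∀ z : ℂ, A ≤ z.im → ‖h z * z ^ j‖ ≤ K * Real.exp (c * |z.re|) * Real.exp (-c * z.im) := by
  obtain ⟨C, c, A, hc, hA, hb⟩ := hh.dec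
  refine ⟨|C| * ((2 / c) ^ j * j.factorial), c / 2, A, by positivity, by positivity, hA,
    fun z hz => ?_⟩
  have hz0 : 0 < z.im := lt_of_lt_of_le hA hz
  have h1 := hb z hz
  have h2 : ‖z‖ ≤ |z.re| + z.im := by
    have := Complex.norm_le_abs_re_add_abs_im z
    rwa [abs_of_pos hz0] at this
  have h3 := pow_le_exp j hc (u := |z.re| + z.im) (by positivity)
  rw [norm_mul, norm_pow]
  calc ‖h z‖ * ‖z‖ ^ j ≤ (|C| * Real.exp (-c * z.im)) * (|z.re| + z.im) ^ j := by
        refine mul_le_mul ?_ (pow_le_pow_left₀ (norm_nonneg _) h2 j) (by positivity) (by positivity)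
        refine h1.trans (mul_le_mul_of_nonneg_right (le_abs_self C) (Real.exp_pos _).le)
    _ ≤ (|C| * Real.exp (-c * z.im)) * (((2 / c) ^ j * j.factorial) *
          Real.exp (c * (|z.re| + z.im) / 2)) := by gcongr
    _ = |C| * ((2 / c) ^ j * j.factorial) * (Real.exp (-c * z.im) *
          Real.exp (c * (|z.re| + z.im) / 2)) := by ring
    _ = |C| * ((2 / c) ^ j * j.factorial) * (Real.exp (c / 2 * |z.re|) *
          Real.exp (-(c / 2) * z.im)) := by
        rw [← Real.exp_add, ← Real.exp_add]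
        congr 2
        ring
    _ = _ := by ring

lemma line_im (x y : ℝ) : ((x : ℂ) + y * I).im = y := by simp

lemma line_re (x y : ℝ) : ((x : ℂ) + y * I).re = x := by simp

theorem Dec.lim {h : ℂ → ℂ} (hh : Dec h) (j : ℕ) {F : ℂ → ℂ}
    (hF : ∀ z : ℂ, 0 < z.im → HasDerivAt F (h z * z ^ j) z) :
    ∃ l : ℂ, ∀ x : ℝ, Tendsto (fun y : ℝ => F ((x : ℂ) + y * I)) atTop (𝓝 l) := by
  obtain ⟨K, c, A, hK, hc, hA, hb⟩ := hh.bd j
  have hder : ∀ (x y : ℝ), 0 < y → HasDerivAt (fun y : ℝ => F ((x : ℂ) + y * I))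
      (h ((x : ℂ) + y * I) * ((x : ℂ) + y * I) ^ j * I) y := by
    intro x y hy
    have h1 := hF ((x : ℂ) + y * I) (by rw [line_im]; exact hy)
    have h2 : HasDerivAt (fun y : ℝ => (x : ℂ) + (y : ℂ) * I) I y := by
      have h3 : HasDerivAt (fun y : ℝ => (y : ℂ)) 1 y := Complex.ofRealCLM.hasDerivAt
      simpa using (h3.mul_const I).const_add (x : ℂ)
    exact h1.comp y h2
  have hbd : ∀ (x y : ℝ), A ≤ y → ‖h ((x : ℂ) + y * I) * ((x : ℂ) + y * I) ^ j * I‖ ≤
      K * Real.exp (c * |x|) * Real.exp (-c * y) := by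
    intro x y hy
    rw [norm_mul, Complex.norm_I, mul_one]
    have := hb ((x : ℂ) + y * I) (by rw [line_im]; exact hy)
    rwa [line_im, line_re] at this
  have hcont : ∀ x : ℝ, ContinuousOn (fun y : ℝ => h ((x : ℂ) + y * I) *
      ((x : ℂ) + y * I) ^ j * I) (Ioi A) := by
    intro x
    have h1 : ContinuousOn (fun y : ℝ => h ((x : ℂ) + y * I)) (Ioi A) := by
      refine hh.diff.continuousOn.comp (by fun_prop) ?_
      intro y hy
      show 0 < ((x : ℂ) + y * I).im
      rw [line_im]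
      exact hA.trans hy
    exact (h1.mul (by fun_prop)).mul continuousOn_const
  have hlim : ∀ x : ℝ, ∃ l : ℂ, Tendsto (fun y : ℝ => F ((x : ℂ) + y * I)) atTop (𝓝 l) := by
    intro x
    refine ⟨_, tendsto_limUnder_of_hasDerivAt_of_integrableOn_Ioi (a := A)
      (f' := fun y : ℝ => h ((x : ℂ) + y * I) * ((x : ℂ) + y * I) ^ j * I)
      (fun y hy => hder x y (hA.trans hy)) ?_⟩
    have h2 : IntegrableOn (fun y : ℝ => K * Real.exp (c * |x|) * Real.exp (-c * y)) (Ioi A) :=
      (exp_neg_integrableOn_Ioi A hc).const_mul _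
    refine Integrable.mono' h2 ((hcont x).aestronglyMeasurable measurableSet_Ioi) ?_
    filter_upwards [ae_restrict_mem measurableSet_Ioi] with y hy
    exact hbd x y (le_of_lt hy)
  choose l hl using hlim
  refine ⟨l 0, fun x => ?_⟩
  have hdiff : Tendsto (fun y : ℝ => F ((x : ℂ) + y * I) - F (((0 : ℝ) : ℂ) + y * I)) atTop
      (𝓝 0) := by
    have h1 : ∀ y : ℝ, A ≤ y → ‖F ((x : ℂ) + y * I) - F (((0 : ℝ) : ℂ) + y * I)‖ ≤
        K * Real.exp (c * |x|) * Real.exp (-c * y) * |x| := by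
      intro y hy
      set s : Set ℂ := {z : ℂ | z.im = y ∧ |z.re| ≤ |x|} with hs
      have hconv : Convex ℝ s := by
        intro a ha b hb' u v hu hv huv
        refine ⟨?_, ?_⟩
        · simp only [Complex.add_im, Complex.real_smul, Complex.mul_im, Complex.ofReal_re,
            Complex.ofReal_im, zero_mul, add_zero]
          rw [ha.1, hb'.1, ← add_mul, huv, one_mul]
        · simp only [Complex.add_re, Complex.real_smul, Complex.mul_re, Complex.ofReal_re,
            Complex.ofReal_im, zero_mul, sub_zero]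
          calc |u * a.re + v * b.re| ≤ |u * a.re| + |v * b.re| := abs_add_le _ _
            _ = u * |a.re| + v * |b.re| := by
                rw [abs_mul, abs_mul, abs_of_nonneg hu, abs_of_nonneg hv]
            _ ≤ u * |x| + v * |x| :=
                add_le_add (mul_le_mul_of_nonneg_left ha.2 hu)
                  (mul_le_mul_of_nonneg_left hb'.2 hv)
            _ = |x| := by rw [← add_mul, huv, one_mul]
      have h2 := Convex.norm_image_sub_le_of_norm_hasDerivWithin_le (f := F)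
        (f' := fun z => h z * z ^ j) (s := s) (C := K * Real.exp (c * |x|) * Real.exp (-c * y))
        (x := ((0 : ℝ) : ℂ) + y * I) (y := (x : ℂ) + y * I) ?_ ?_ hconv ?_ ?_
      · have h3 : (x : ℂ) + y * I - (((0 : ℝ) : ℂ) + y * I) = (x : ℂ) := by
          push_cast
          ring
        rw [h3, Complex.norm_real, Real.norm_eq_abs] at h2
        exact h2
      · intro z hz
        exact (hF z (by rw [hz.1]; linarith)).hasDerivWithinAt
      · intro z hz
        have h3 := hb z (by rw [hz.1]; exact hy)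
        rw [hz.1] at h3
        refine h3.trans ?_
        have h4 : Real.exp (c * |z.re|) ≤ Real.exp (c * |x|) := by
          apply Real.exp_le_exp.2
          exact mul_le_mul_of_nonneg_left hz.2 hc.le
        gcongr
      · exact ⟨by rw [line_im], by rw [line_re, abs_zero]; exact abs_nonneg x⟩
      · exact ⟨by rw [line_im], by rw [line_re]⟩
    have h2 : Tendsto (fun y : ℝ => K * Real.exp (c * |x|) * Real.exp (-c * y) * |x|) atTop
        (𝓝 0) := by
      have h3 : Tendsto (fun y : ℝ => Real.exp (-c * y)) atTop (𝓝 0) := by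
        have h4 : Tendsto (fun y : ℝ => -c * y) atTop atBot :=
          tendsto_id.const_mul_atTop_of_neg (by linarith)
        exact Real.tendsto_exp_atBot.comp h4
      have h5 := (h3.const_mul (K * Real.exp (c * |x|))).mul_const |x|
      rw [mul_zero, zero_mul] at h5
      exact h5
    refine squeeze_zero_norm' ?_ h2
    filter_upwards [eventually_ge_atTop A] with y hy
    exact h1 y hy
  have h3 := hdiff.add (hl 0)
  rw [zero_add] at h3
  refine h3.congr fun y => ?_
  ring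

/-- **the normalised primitive of `h(z) z ^ j`** -/
theorem Dec.exists {h : ℂ → ℂ} (hh : Dec h) (j : ℕ) : ∃ F : ℂ → ℂ,
    (∀ z : ℂ, 0 < z.im → HasDerivAt F (h z * z ^ j) z) ∧
    ∀ x : ℝ, Tendsto (fun y : ℝ => F ((x : ℂ) + y * I)) atTop (𝓝 0) := by
  obtain ⟨F, hF⟩ := exists_primitive (fun z => h z * z ^ j) (hh.diff.mul (by fun_prop))
  obtain ⟨l, hl⟩ := hh.lim j hF
  refine ⟨fun z => F z - l, fun z hz => (hF z hz).sub_const l, fun x => ?_⟩
  have := (hl x).sub_const l
  rwa [sub_self] at this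

open Classical in
/-- the normalised primitive, a function of `h` and `j` -/
noncomputable def PJ (h : ℂ → ℂ) (j : ℕ) : ℂ → ℂ :=
  if hh : Dec h then Classical.choose (hh.exists j) else 0

lemma PJ_deriv {h : ℂ → ℂ} (hh : Dec h) (j : ℕ) (z : ℂ) (hz : 0 < z.im) :
    HasDerivAt (PJ h j) (h z * z ^ j) z := by
  unfold PJ
  rw [dif_pos hh]
  exact (Classical.choose_spec (hh.exists j)).1 z hz

lemma PJ_lim {h : ℂ → ℂ} (hh : Dec h) (j : ℕ) (x : ℝ) :
    Tendsto (fun y : ℝ => PJ h j ((x : ℂ) + y * I)) atTop (𝓝 0) := by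
  unfold PJ
  rw [dif_pos hh]
  exact (Classical.choose_spec (hh.exists j)).2 x

end Pool.Agent.Y683.MS
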