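import Pool.Agent.Y683.MS.Pol

/-!
# The translates of a cusp form
-/

set_option autoImplicit false

namespace Pool.Agent.Y683.MS

open Complex Filter Topology Set Polynomial
open UpperHalfPlane hiding I
open scoped MatrixGroups ModularForm Manifold Pointwise
open CongruenceSubgroup ConjAct

variable {N : ℕ} [NeZero N] {k : ℤ}

lemma arith (g : SL(2, ℤ)) : Subgroup.IsArithmetic
    (toConjAct (g : GL (Fin 2) ℝ)⁻¹ • (Gamma1 N : Subgroup (GL (Fin 2) ℝ))) := by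
  have h1 : (g : GL (Fin 2) ℝ) = ((g : GL (Fin 2) ℚ)).map (Rat.castHom ℝ) := by
    ext i j
    fin_cases i <;> fin_cases j <;> simp
  have h2 := Subgroup.IsArithmetic.conj (Gamma1 N : Subgroup (GL (Fin 2) ℝ))
    ((g : GL (Fin 2) ℚ))⁻¹
  rw [map_inv, ← h1] at h2
  exact h2

/-- `f | g` as a function on `ℂ` -/
noncomputable def Hf (f : CuspForm (Gamma1 N : Subgroup (GL (Fin 2) ℝ)) k) (g : SL(2, ℤ)) : ℂ → ℂ :=
  ((f : ℍ → ℂ) ∣[k] g) ∘ ofComplex

variable (f : CuspForm (Gamma1 N : Subgroup (GL (Fin 2) ℝ)) k)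

omit [NeZero N] in
lemma Hf_apply (g : SL(2, ℤ)) (τ : ℍ) : Hf f g τ = ((f : ℍ → ℂ) ∣[k] g) τ := by
  unfold Hf
  simp

theorem Hf_dec (g : SL(2, ℤ)) : Dec (Hf f g) := by
  refine ⟨?_, ?_⟩
  · have h1 := (ModularFormClass.holo f).slash k (g : GL (Fin 2) ℝ)
    exact UpperHalfPlane.mdifferentiable_iff.mp h1
  · have h := arith (N := N) g
    obtain ⟨c, hc, h2⟩ := CuspFormClass.exp_decay_atImInfty'
      (CuspForm.translate f (g : GL (Fin 2) ℝ))
    obtain ⟨C, hC⟩ := h2.bound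
    rw [atImInfty, eventually_comap, eventually_atTop] at hC
    obtain ⟨A, hA⟩ := hC
    refine ⟨C, c, max A 1, hc, by positivity, fun z hz => ?_⟩
    have hz0 : 0 < z.im := lt_of_lt_of_le (by positivity) hz
    have h3 := hA z.im (le_trans (le_max_left _ _) hz) ⟨z, hz0⟩ rfl
    rw [Real.norm_eq_abs, Real.abs_exp] at h3
    have h4 : Hf f g z = CuspForm.translate f (g : GL (Fin 2) ℝ) ⟨z, hz0⟩ := by
      have := Hf_apply f g ⟨z, hz0⟩
      exact this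
    rw [h4]
    exact h3

theorem Hf_mob {d : ℕ} (hk : k = (d : ℤ) + 2) (g g' : SL(2, ℤ)) (z : ℂ) (hz : 0 < z.im) :
    Hf f g (mob g' z) = den g' z ^ (d + 2) * Hf f (g * g') z := by
  set τ : ℍ := ⟨z, hz⟩ with hτ
  have h1 : mob g' z = ((g' • τ : ℍ) : ℂ) := (mob_coe g' τ).symm
  have h2 : Hf f (g * g') z = ((f : ℍ → ℂ) ∣[k] (g * g')) τ := Hf_apply f (g * g') τ
  rw [h1, Hf_apply, h2, SlashAction.slash_mul,
    ModularForm.SL_slash_apply ((f : ℍ → ℂ) ∣[k] g) g' τ]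
  have h3 : UpperHalfPlane.denom (g' : GL (Fin 2) ℝ) (τ : ℂ) = den g' z := by
    rw [ModularGroup.denom_apply]
    rfl
  rw [h3]
  have h0 := den_ne g' hz
  have h4 : den g' z ^ (-k) = (den g' z ^ (d + 2))⁻¹ := by
    rw [hk, zpow_neg]
    congr 1
  rw [h4]
  field_simp

theorem Hf_fin : (Set.range (Hf f)).Finite := by
  have h1 : ∀ γ ∈ Gamma1 N, ∀ g : SL(2, ℤ), Hf f (γ * g) = Hf f g := by
    intro γ hγ g
    unfold Hf
    rw [SlashAction.slash_mul]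
    have h2 : (f : ℍ → ℂ) ∣[k] γ = f := by
      have := SlashInvariantFormClass.slash_action_eq f (γ : GL (Fin 2) ℝ) ⟨γ, hγ, rfl⟩
      exact this
    rw [h2]
  have h3 : Finite (SL(2, ℤ) ⧸ Gamma1 N) := by
    have : (Gamma1 N).FiniteIndex := inferInstance
    exact Subgroup.finite_quotient_of_finiteIndex
  let φ : SL(2, ℤ) ⧸ Gamma1 N → (ℂ → ℂ) := fun x => Quotient.liftOn' x (fun g => Hf f g⁻¹) (by
    intro a b hab
    rw [QuotientGroup.leftRel_apply] at hab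
    have h4 := h1 (a⁻¹ * b) hab b⁻¹
    have h5 : a⁻¹ * b * b⁻¹ = a⁻¹ := by group
    rw [h5] at h4
    exact h4)
  refine (Set.finite_range φ).subset ?_
  rintro _ ⟨g, rfl⟩
  refine ⟨QuotientGroup.mk g⁻¹, ?_⟩
  show Hf f (g⁻¹)⁻¹ = Hf f g
  rw [inv_inv]

end Pool.Agent.Y683.MS
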